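import Mathlib
import Pool.Agent.H21bl.TC.MainE
import Pool.Agent.H21bl.TC.MainB

/-!
# Covers of tori which are reducible at infinity

`V` is the closed subscheme of affine `n`-space over the ring of integers of a number field `K`
given by the finitely many polynomials `F i`, and `V'` is its closed subscheme given by the `G l`.
`La L r` is the ring of Laurent polynomials in `r` variables over `L`, with exponents in `ℤ ^ r`.

A monic polynomial `Θ` of degree `e` with coefficients in `La L r` is *reducible at infinity*
(`RedH`) when there are a vector `μ` and `ε > 0` such that in all directions `θ ≠ 0` with
`μ · θ ≤ ε ‖θ‖`, that is, outside an open half space, it is approximately a product of two monic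
polynomials `g / D` of degree less than `e`: for every `N` there are a Laurent polynomial `D`, an
exponent `b` of `D` and polynomials `g 0`, `g 1` of degree less than `e` and leading coefficient `D`
such that all exponents of `g 0 * g 1 - D ^ 2 * Θ` have weight at most `2 b · θ - N`. For a rational
direction this means that `Θ` is reducible over the completion of the field of rational functions
at the corresponding boundary divisor of the toric varieties of dimension `r`.

`RedInf Ψ` means that for some `m ≥ 1` all monic divisors of `Ψ(Y; t ^ m)` of degree at least two
are reducible at infinity (or `Ψ(Y; t ^ m)` splits into linear factors at infinity in the same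
sense, `SplitsH`, which is a special case in theory and easier to check).

A polynomial `f` over `K` satisfies `SplitOver` when for some units `u_1, ..., u_N`, `A` of `V` and
some `h ≥ 1` the following holds for all translates `T` of subtori of `G_m ^ N` over all
algebraically closed extensions of `K`, where `T` is parametrized by `t ↦ c * t ^ a`: at the points
`z` of `V` outside `V'` with `u(z)` in `T` we have `f = A ^ (1 / h) * β`, where `q(t) β` is a root
of a monic polynomial `Ψ` over the ring of functions of `T`, `q ≠ 0`, with `RedInf Ψ` if `T` has
dimension at least two. There is no condition on `Ψ` for tori of dimension at most one, and no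
condition at all for the translates `T` which are not contained in the closure of `u(V ∖ V')`.

If the coordinate functions are in the `K`-algebra generated by such functions, conditions (i) and
(ii) are equivalent, and both mean that every nonconstant Laurent curve in `V(ℂ)` is in `V'(ℂ)`.
-/

set_option autoImplicit false

namespace Pool.Agent.Results.MP_e97a4d_nt.CoversOfTori

open MvPolynomial NumberField
open Pool.Agent.H159R3.Exp (FinitelyManyIntegral)
open Pool.Agent.W235.RM (EntireCurvesIn GmCurvesIn tfae exp_of_entire rec_of_integral)
open Pool.Agent.H21bl.TC (SplitOver)
open scoped NumberField

/-- **Conditions (i) and (ii) are equivalent for the closed subschemes of affine space whose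
functions are algebraic over the units and reducible at infinity**, for all closed subschemes
`V'`. -/
theorem result {K : Type} [Field K] [NumberField K] (σ : K →+* ℂ) {n : ℕ} {ι κ : Type} [Finite ι]
    (F : ι → MvPolynomial (Fin n) (𝓞 K)) (G : κ → MvPolynomial (Fin n) (𝓞 K))
    (h : ∀ i, (X i : MvPolynomial (Fin n) K) ∈ Algebra.adjoin K {f | SplitOver σ F G f}) :
    List.TFAE [EntireCurvesIn σ F G, FinitelyManyIntegral F G, GmCurvesIn σ F G] := by
  have ht := tfae σ F G
  tfae_have 1 → 3 := fun h1 => (ht.out 0 1).1 (exp_of_entire σ F G h1)
  tfae_have 3 → 1 := Pool.Agent.H21bl.TC.entire_of_gmT σ F G h
  tfae_have 3 → 2 := Pool.Agent.H21bl.TC.integral_of_gmT σ F G h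
  tfae_have 2 → 3 := fun h2 => (ht.out 5 1).1 (rec_of_integral F G h2)
  tfae_finish

end Pool.Agent.Results.MP_e97a4d_nt.CoversOfTori
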