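import Pool.Agent.H21bl.KC.Main

/-!
# Covers of arbitrary affine schemes, pulled back by high powers

Let `Z` be any affine scheme of finite type over the ring of integers of a number field `K`, given
by polynomials `f l` in `n` variables, let `F 0, …, F (r-1)`, `H` be arbitrary polynomials, and let
`e 0, …, e (r-1)` be positive numbers. For `m ≥ 1` let `V_m` be the affine scheme in the coordinates
`t 0, …, t (n-1), w 0, …, w (r-1), y` with the equations

`f l (t ^ m) = 0`, `w j ^ e j = F j (t ^ m)`, `y * H (t ^ m) = 1`, where `t ^ m = (t i ^ m)_i`;

it is the pullback by the map `t ↦ t ^ m` of an arbitrary Kummer cover of the open subscheme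
`H ≠ 0` of `Z`. We show that for all large `m` divisible by the `e j`, for all closed subschemes
`V'` of `V_m` and all embeddings of `K` in `ℂ`, condition (ii) implies condition (i), and that
condition (i) holds if and only if all nonconstant Laurent curves in `V_m` lie in `V'`, and if and
only if all sequences of integral points of `V_m` whose coordinates satisfy linear recurrences have
only finitely many terms outside of `V'`.
-/

set_option autoImplicit false

namespace Pool.Agent.Results.MP_e97a4d_nt.KummerPowerCovers

open MvPolynomial NumberField
open Pool.Agent.H159R3.Exp (FinitelyManyIntegral)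
open Pool.Agent.W235.RM (EntireCurvesIn GmCurvesIn RecurrenceFinite)
open Pool.Agent.H21bl.KC (eqs)
open scoped NumberField

/-- **Condition (ii) implies condition (i), which is the condition for Laurent curves, for the
pullbacks by high powers of all Kummer covers of affine schemes of finite type**, and for all closed
subschemes. -/
theorem result {K : Type} [Field K] [NumberField K] {n r : ℕ} {ι : Type} [Finite ι]
    (f : ι → MvPolynomial (Fin n) (𝓞 K)) (F : Fin r → MvPolynomial (Fin n) (𝓞 K)) (e : Fin r → ℕ)
    (he : ∀ j, 0 < e j) (H : MvPolynomial (Fin n) (𝓞 K)) :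
    ∃ m0 : ℕ, ∀ m, m0 ≤ m → (∀ j, e j ∣ m) →
      ∀ {κ : Type} (G : κ → MvPolynomial (Fin (n + r + 1)) (𝓞 K)) (σ : K →+* ℂ),
        (FinitelyManyIntegral (eqs m f F e H) G → EntireCurvesIn σ (eqs m f F e H) G) ∧
        List.TFAE [EntireCurvesIn σ (eqs m f F e H) G, GmCurvesIn σ (eqs m f F e H) G,
          RecurrenceFinite (eqs m f F e H) G] := by
  obtain ⟨m0, h⟩ := Pool.Agent.H21bl.KC.main f F e he H
  exact ⟨m0, fun m hm hme κ G σ => (h m hm hme G σ).symm⟩

end Pool.Agent.Results.MP_e97a4d_nt.KummerPowerCovers
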