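import Mathlib
import Pool.Agent.H21bl.LT.ArM
import Pool.Agent.H21bl.LT.Cov
import Pool.Agent.W235.RM.Final

/-!
# Varieties which are linear over a torus

`V` is the closed subscheme of affine `n`-space over the ring of integers of a number field `K`
given by the finitely many polynomials `F i`, and `V'` is its closed subscheme given by the `G l`.
`U` is a set of coordinate functions which have no zero on `V(ℂ)`. If all the `F i` have degree at
most one in the coordinates outside `U`, or, more generally, if every point of `V(ℂ)` outside
`V'(ℂ)` which is not alone in its fibre over the coordinates in `U` is on a nonconstant Laurent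
curve in `V(ℂ)`, then conditions (i) and (ii) are equivalent, and both mean that every nonconstant
Laurent curve in `V(ℂ)` is in `V'(ℂ)`.
-/

set_option autoImplicit false

namespace Pool.Agent.Results.MP_e97a4d_nt.LinearOverTorus

open MvPolynomial NumberField
open Pool.Agent.N754.LT (LinOff)
open Pool.Agent.H159R3.Exp (FinitelyManyIntegral)
open Pool.Agent.W235.RM (EntireCurvesIn GmCurvesIn tfae exp_of_entire rec_of_integral)
open Pool.Agent.H21bl (Covered)
open scoped NumberField

/-- **Conditions (i) and (ii) are equivalent for the closed subschemes of affine space which are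
linear in the coordinates other than units**, for all closed subschemes `V'`. -/
theorem result {K : Type} [Field K] [NumberField K] (σ : K →+* ℂ) {n : ℕ} {ι κ : Type} [Finite ι]
    (F : ι → MvPolynomial (Fin n) (𝓞 K)) (G : κ → MvPolynomial (Fin n) (𝓞 K))
    (U : Finset (Fin n))
    (hU : ∀ z : Fin n → ℂ, (∀ l, eval₂ (σ.comp (algebraMap (𝓞 K) K)) z (F l) = 0) →
      ∀ i ∈ U, z i ≠ 0)
    (h : (∀ l, LinOff U (F l)) ∨ Covered σ F G U) :
    List.TFAE [EntireCurvesIn σ F G, FinitelyManyIntegral F G, GmCurvesIn σ F G] := by
  have hcov : Covered σ F G U := h.elim (Pool.Agent.H21bl.covered_of_lin σ F G U) id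
  have ht := tfae σ F G
  tfae_have 1 → 3 := fun h1 => (ht.out 0 1).1 (exp_of_entire σ F G h1)
  tfae_have 3 → 1 := Pool.Agent.H21bl.entire_of_gm σ F G U hU hcov
  tfae_have 3 → 2 := Pool.Agent.H21bl.integral_of_gm σ F G U hU hcov
  tfae_have 2 → 3 := fun h2 => (ht.out 5 1).1 (rec_of_integral F G h2)
  tfae_finish

end Pool.Agent.Results.MP_e97a4d_nt.LinearOverTorus
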