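import Mathlib
import Pool.Agent.H21bl.RE.Main
import Pool.Agent.H21bl.QS.Conv

/-!
# The equivalence for curves and points of bounded complexity

`V` is the closed subscheme of affine `n`-space over the ring of integers of a number field `K`
given by the finitely many polynomials `F i`, and `V'` is its closed subscheme given by the `G l`.
There is no condition on `V` and `V'` in the first and in the last two parts.

The radical functions (`RadFun`) are the smallest class of functions on the plane which contains
the constants, `z` and `exp (g z)` for ALL entire functions `g`, and is closed under sums, products,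
quotients and the extraction of roots. Condition (i) for the entire curves in `V` with radical
coordinates is equivalent to condition (ii) for the `S`-integral points whose coordinates are
quotients of sums of boundedly many `S`-units, to condition (i) for Laurent curves, and to condition
(ii) for sequences which satisfy linear recurrences. All these follow from (i), and from (ii).

The points of a radical curve in any complex affine variety, with countably many exceptions, are on
Laurent curves in the variety. The `S`-integral points of `V` whose coordinates are quotients of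
sums of at most `m` `S`-units, with finitely many exceptions, are on Laurent curves in `V(ℂ)`.

If `V ∖ V'` is a tower of extractions of roots of rational functions, beginning with functions
without zeros (`Tower`), all entire curves in `V` which are not in `V'` are radical.
-/

set_option autoImplicit false

namespace Pool.Agent.Results.MP_e97a4d_nt.RadicalEquivalence

open MvPolynomial NumberField IsDedekindDomain
open Pool.Agent.H159R3.Exp (FinitelyManyIntegral Laur intPoints)
open Pool.Agent.W235.RM (EntireCurvesIn GmCurvesIn RecurrenceFinite tfae rec_of_integral)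
open Pool.Agent.H21bl.RE
open Pool.Agent.H21bl.QS
open scoped NumberField

/-- **Conditions (i) and (ii) for all closed subschemes of affine space, for the entire curves with
radical coordinates and the integral points which are quotients of sums of boundedly many
units.** -/
theorem result {K : Type} [Field K] [NumberField K] (σ : K →+* ℂ) {n : ℕ} {ι κ : Type} [Finite ι]
    (F : ι → MvPolynomial (Fin n) (𝓞 K)) (G : κ → MvPolynomial (Fin n) (𝓞 K)) :
    (List.TFAE [RadCurvesIn σ F G, QuotientFinite F G, GmCurvesIn σ F G, RecurrenceFinite F G] ∧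
      (EntireCurvesIn σ F G → QuotientFinite F G) ∧
      (FinitelyManyIntegral F G → RadCurvesIn σ F G)) ∧
    (Tower σ F G →
      (EntireCurvesIn σ F G ↔ QuotientFinite F G) ∧
      (FinitelyManyIntegral F G → EntireCurvesIn σ F G)) ∧
    (∀ (L : Type) [Field L] [NumberField L] [Algebra K L] (τ : L →+* ℂ),
      τ.comp (algebraMap K L) = σ → ∀ S : Set (HeightOneSpectrum (𝓞 L)), S.Finite → ∀ m : ℕ,
      {x ∈ intPoints F L S | (∀ j, x j ∈ UnitQuotients L S m) ∧
        ¬ ∃ v : ℂ → Fin n → ℂ, (∀ j, Laur fun s => v s j) ∧
          (∀ i s, s ≠ 0 → eval₂ (σ.comp (algebraMap (𝓞 K) K)) (v s) (F i) = 0) ∧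
          (v 1 = fun j => τ (x j)) ∧ v 2 ≠ v 1}.Finite) ∧
    ∀ (m : ℕ) (H : Set (MvPolynomial (Fin m) ℂ)) (f : ℂ → Fin m → ℂ), Differentiable ℂ f →
      (∀ j, RadFun fun z => f z j) → (∀ z, ∀ P ∈ H, eval (f z) P = 0) → (∃ z w, f z ≠ f w) →
      {z | ¬ ∃ v : ℂ → Fin m → ℂ, (∀ j, Laur fun s => v s j) ∧
        (∀ P ∈ H, ∀ s, s ≠ 0 → eval (v s) P = 0) ∧ v 1 = f z ∧ v 2 ≠ v 1}.Countable := by
  have ht := tfae σ F G
  have h12 : List.TFAE [RadCurvesIn σ F G, QuotientFinite F G, GmCurvesIn σ F G,
      RecurrenceFinite F G] := by
    tfae_have 1 → 3 := fun h => (ht.out 0 1).1 (exp_of_rad σ F G h)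
    tfae_have 3 → 1 := rad_of_gm σ F G
    tfae_have 3 ↔ 4 := ht.out 1 5
    tfae_have 3 ↔ 2 := gm_iff_quotient σ F G
    tfae_finish
  refine ⟨⟨h12, fun h => (h12.out 0 1).1 (rad_of_entire σ F G h),
    fun h => (h12.out 3 0).1 (rec_of_integral F G h)⟩,
    fun hT => ⟨⟨fun h => (h12.out 0 1).1 (rad_of_entire σ F G h),
      fun h => entire_of_tower σ F G hT ((h12.out 1 0).1 h)⟩,
      fun h => entire_of_tower σ F G hT ((h12.out 3 0).1 (rec_of_integral F G h))⟩,
    fun L _ _ _ τ hτ S hS m => quotient_laurent σ F L τ hτ S hS m,
    fun m H f hf hrad hF hnc => ?_⟩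
  refine (rad_curve (fun P : H => P.1) f hf hrad (fun z P => hF z P.1 P.2) hnc).mono ?_
  intro z hz hcon
  obtain ⟨v, h1, h2, h3, h4⟩ := hcon
  exact hz ⟨v, h1, fun P hP s hs => h2 ⟨P, hP⟩ s hs, h3, h4⟩

end Pool.Agent.Results.MP_e97a4d_nt.RadicalEquivalence
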